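import Pool.Agent.W960.HS.CB5

/-! # Smoothed analysis with noise of the Kostlan ensemble: a bound linear in the degree

For every planar polynomial system of degree at most `n`, perturbed by the random system of the
Kostlan ensemble of size `σ`, the expected number of all closed orbits in the plane is at most
`10 ^ 51 * n * (1 + |c₀| / σ) ^ 3`; in particular the expected number of closed orbits of the Kostlan
ensemble itself is at most `10 ^ 51 * n`. -/

open Set MeasureTheory
open scoped ENNReal

namespace Pool.Agent.Results.MP_95e7ec_an.KostlanSmoothedLinear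

/-- the exponents `(i, j)` of all monomials `x ^ i y ^ j` of degree at most `n` -/
def exponents (n : ℕ) : Finset (ℕ × ℕ) :=
  (Finset.range (n + 1) ×ˢ Finset.range (n + 1)).filter fun m => m.1 + m.2 ≤ n

/-- the multinomial coefficient `n! / (i! j! (n - i - j)!)` -/
def multinomial (n : ℕ) (m : ℕ × ℕ) : ℕ := n.choose m.2 * (n - m.2).choose m.1

/-- the planar polynomial system with coefficient vectors
`√(n! / (i! j! (n - i - j)!)) c (i, j)` -/
noncomputable def system (n : ℕ) (c : exponents n → ℝ × ℝ) (z : ℝ × ℝ) : ℝ × ℝ :=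
  (∑ m : exponents n, √(multinomial n m.1) * (c m).1 * (z.1 ^ m.1.1 * z.2 ^ m.1.2),
    ∑ m : exponents n, √(multinomial n m.1) * (c m).2 * (z.1 ^ m.1.1 * z.2 ^ m.1.2))

/-- the number of all closed orbits in the plane `ℝ²` (images of nonconstant periodic solutions,
limit cycles or not) of the vector field `V` -/
noncomputable def closedOrbits (V : ℝ × ℝ → ℝ × ℝ) : ℝ≥0∞ :=
  (({C : Set (ℝ × ℝ) | ∃ γ : ℝ → ℝ × ℝ, ∃ T : ℝ, 0 < T ∧ (∀ t : ℝ, HasDerivAt γ (V (γ t)) t) ∧
    (∀ t : ℝ, γ (t + T) = γ t) ∧ (∃ s t : ℝ, γ s ≠ γ t) ∧ C = Set.range γ}.encard : ℕ∞) : ℝ≥0∞)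

/-- independent standard Gaussian vectors -/
noncomputable def gaussian (n : ℕ) : Measure (exponents n → ℝ × ℝ) :=
  Measure.pi fun _ : exponents n =>
    (ProbabilityTheory.gaussianReal 0 1).prod (ProbabilityTheory.gaussianReal 0 1)

/-- the Euclidean length of the coefficient vector (the Bombieri–Weyl norm of the system) -/
noncomputable def size (n : ℕ) (c : exponents n → ℝ × ℝ) : ℝ :=
  √(∑ m : exponents n, ((c m).1 ^ 2 + (c m).2 ^ 2))

lemma closedOrbits_eq (n : ℕ) (c : exponents n → ℝ × ℝ) :
    closedOrbits (system n c) = H709R2.NP (W960.HS.sc n c) := by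
  have h1 : system n c = H709R2.fld (W960.HS.sc n c) := by
    funext p
    unfold system H709R2.fld W960.HS.sc W960.HS.sm W960.HS.mlt multinomial
    ext
    · simp only [Prod.fst_sum, Prod.smul_fst, smul_eq_mul, Nat.cast_mul]
      exact Finset.sum_congr rfl fun m _ => by ring
    · simp only [Prod.snd_sum, Prod.smul_snd, smul_eq_mul, Nat.cast_mul]
      exact Finset.sum_congr rfl fun m _ => by ring
  unfold H709R2.NP closedOrbits H709R2.ClosedOrbit
  rw [h1]

/-- **Smoothed analysis with noise of the Kostlan ensemble, linear in the degree.** The number of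
closed orbits is a Borel function of the coefficients, and for every `n ≥ 1`, every system `c₀` of
degree at most `n` and every `σ > 0` the expected number of closed orbits in the plane of the
system with coefficients `c₀ + σ g`, where `g` is a vector of independent standard normal variables,
is at most `10 ^ 51 * n * (1 + |c₀| / σ) ^ 3`. -/
theorem result (n : ℕ) (hn : 1 ≤ n) :
    Measurable (fun c => closedOrbits (system n c)) ∧
    ∀ (c₀ : exponents n → ℝ × ℝ) (σ : ℝ), 0 < σ →
      ∫⁻ g, closedOrbits (system n fun m => ((c₀ m).1 + σ * (g m).1, (c₀ m).2 + σ * (g m).2))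
        ∂(gaussian n) ≤ ENNReal.ofReal (10 ^ 51 * n * (1 + size n c₀ / σ) ^ 3) := by
  refine ⟨?_, fun c₀ σ hσ => ?_⟩
  · have h : (fun c => closedOrbits (system n c)) = fun c => H709R2.NP (W960.HS.sc n c) :=
      funext (closedOrbits_eq n)
    rw [h]
    exact H709R2.measurable_NP.comp (W960.HS.continuous_sc n).measurable
  · simp only [closedOrbits_eq]
    exact W960.HS.kostlan_smoothed hn c₀ hσ

end Pool.Agent.Results.MP_95e7ec_an.KostlanSmoothedLinear
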