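import Pool.Agent.TH275.LF.Lien3
import Pool.Agent.H709L.P3

/-! # Liénard systems with few monomials, in the mean

For a polynomial `p` with at most `m` monomials of degree at least two, of whatever degree, the mean
number of closed orbits in the plane of the Liénard system `x' = y - p(x) + s x`, `y' = -x`, over every
interval of length one of the parameter `s`, is at most `900000 * (m + 1) ^ 2`. -/

open Set MeasureTheory
open scoped ENNReal

namespace Pool.Agent.Results.MP_95e7ec_an.LienardSparseMean

/-- The number of all closed orbits (ranges of nonconstant periodic solutions, limit cycles or not) in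
the plane of the Liénard system `x' = y - p(x) + s x`, `y' = -x`. -/
noncomputable def closedOrbits (p : Polynomial ℝ) (s : ℝ) : ℝ≥0∞ :=
  (({C : Set (ℝ × ℝ) | ∃ γ : ℝ → ℝ × ℝ, ∃ T : ℝ, 0 < T ∧
    (∀ t : ℝ, HasDerivAt γ ((γ t).2 - p.eval (γ t).1 + s * (γ t).1, -(γ t).1) t) ∧
    (∀ t : ℝ, γ (t + T) = γ t) ∧ (∃ s t : ℝ, γ s ≠ γ t) ∧ C = Set.range γ}.encard : ℕ∞) : ℝ≥0∞)

/-- **The mean number of closed orbits of a Liénard system is at most quadratic in the number of
monomials, whatever the degree.** -/
theorem result (p : Polynomial ℝ) (m : ℕ) (hm : (p.support.filter fun e => 2 ≤ e).card ≤ m) :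
    Measurable (closedOrbits p) ∧
    ∀ a : ℝ, ∫⁻ s in Ioo a (a + 1), closedOrbits p s ≤ ENNReal.ofReal (900000 * (m + 1) ^ 2) :=
  ⟨H709L.measL p, fun a => TH275.LF.mean_sparse p m hm a⟩

end Pool.Agent.Results.MP_95e7ec_an.LienardSparseMean
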