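import Pool.Agent.H709Q.Meas

/-! # An absolute bound for the number of closed orbits of quadratic systems in the mean

For every quadratic system the mean number of all closed orbits in the whole plane, over all rotated
systems, is at most `1544 * 10 ^ 6 / (2 π)`. So the mean number of closed orbits of a random quadratic
system is at most `246 * 10 ^ 6` for every law of its coefficients which is invariant under rotation
of the field. -/

open Set MeasureTheory
open scoped ENNReal

namespace Pool.Agent.Results.MP_95e7ec_an.QuadraticMean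

/-- the quadratic field `c₀ + x c₁ + y c₂ + x² c₃ + x y c₄ + y² c₅` with coefficient vectors `cᵢ` -/
def field (c : Fin 6 → ℝ × ℝ) (z : ℝ × ℝ) : ℝ × ℝ :=
  ((c 0).1 + (c 1).1 * z.1 + (c 2).1 * z.2 + (c 3).1 * z.1 ^ 2 + (c 4).1 * (z.1 * z.2) +
      (c 5).1 * z.2 ^ 2,
    (c 0).2 + (c 1).2 * z.1 + (c 2).2 * z.2 + (c 3).2 * z.1 ^ 2 + (c 4).2 * (z.1 * z.2) +
      (c 5).2 * z.2 ^ 2)

/-- the number of all closed orbits (ranges of nonconstant periodic solutions, limit cycles or not) in
the plane of the quadratic system with coefficients `c` -/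
noncomputable def closedOrbits (c : Fin 6 → ℝ × ℝ) : ℝ≥0∞ :=
  (({C : Set (ℝ × ℝ) | ∃ γ : ℝ → ℝ × ℝ, ∃ T : ℝ, 0 < T ∧
    (∀ t : ℝ, HasDerivAt γ (field c (γ t)) t) ∧ (∀ t : ℝ, γ (t + T) = γ t) ∧
    (∃ s t : ℝ, γ s ≠ γ t) ∧ C = Set.range γ}.encard : ℕ∞) : ℝ≥0∞)

/-- the coefficients of the field rotated by the angle `α` -/
noncomputable def rotation (α : ℝ) (c : Fin 6 → ℝ × ℝ) (i : Fin 6) : ℝ × ℝ :=
  (Real.cos α * (c i).1 - Real.sin α * (c i).2, Real.sin α * (c i).1 + Real.cos α * (c i).2)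

lemma field_eq (c : Fin 6 → ℝ × ℝ) : field c = H709Q.qf c := by
  funext z
  unfold field H709Q.qf
  ext
  · simp only [Prod.fst_add, Prod.smul_fst, smul_eq_mul]; ring
  · simp only [Prod.snd_add, Prod.smul_snd, smul_eq_mul]; ring

lemma closedOrbits_eq : closedOrbits = H709Q.NQ := by
  funext c
  unfold closedOrbits H709Q.NQ H709R2.ClosedOrbit
  rw [field_eq]

/-- **The mean number of closed orbits of quadratic systems is at most an absolute constant.** -/
theorem result :
    Measurable closedOrbits ∧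
    (∀ c : Fin 6 → ℝ × ℝ, ∫⁻ α in Ioc 0 (2 * Real.pi), closedOrbits (rotation α c) ≤
      ENNReal.ofReal (1544 * 10 ^ 6)) ∧
    ∀ (μ : Measure (Fin 6 → ℝ × ℝ)) [IsProbabilityMeasure μ],
      (∀ α : ℝ, μ.map (rotation α) = μ) →
      ∫⁻ c, closedOrbits c ∂μ ≤ ENNReal.ofReal (246 * 10 ^ 6) := by
  rw [closedOrbits_eq]
  exact ⟨H709Q.measurable_NQ, fun c => (H709Q.main_single c).2, fun μ _ hμ =>
    H709Q.main_measure μ hμ⟩

end Pool.Agent.Results.MP_95e7ec_an.QuadraticMean
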