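import Pool.Agent.W960.HQ.Finq

/-! # The number of all closed orbits, of all sizes, for most rotated fields

For every planar polynomial vector field of degree at most `n` and every `0 < ε ≤ 1`: the rotated
fields with more than `4 * 10 ^ 9 * (n + 1) ^ 8 * (1 + log ((n + 1) / ε)) / ε` closed orbits in the
whole plane belong to a set of angles of measure at most `ε`. There is no restriction on the sizes
or the positions of the closed orbits. In particular every interval of angles of length `ε`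
contains an angle where that bound holds, and for every exponent `q < 1` the mean of the `q`-th power
of the number of closed orbits over all rotated fields is at most
`10 ^ 11 * (n + 1) ^ 9 / (1 - q) ^ 2`. -/

open Set MeasureTheory
open scoped ENNReal

namespace Pool.Agent.Results.MP_95e7ec_an.RotatedWeakType

/-- the vector field `(P, Q)` rotated by the angle `α` -/
noncomputable def rotated (P Q : MvPolynomial (Fin 2) ℝ) (α : ℝ) (z : ℝ × ℝ) : ℝ × ℝ :=
  (Real.cos α * MvPolynomial.eval ![z.1, z.2] P - Real.sin α * MvPolynomial.eval ![z.1, z.2] Q,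
    Real.sin α * MvPolynomial.eval ![z.1, z.2] P + Real.cos α * MvPolynomial.eval ![z.1, z.2] Q)

/-- all closed orbits in the plane (ranges of nonconstant periodic solutions, limit cycles or not)
of the field `(P, Q)` rotated by the angle `α` -/
def closedOrbits (P Q : MvPolynomial (Fin 2) ℝ) (α : ℝ) : Set (Set (ℝ × ℝ)) :=
  {C | ∃ γ : ℝ → ℝ × ℝ, ∃ T : ℝ, 0 < T ∧ (∀ t : ℝ, HasDerivAt γ (rotated P Q α (γ t)) t) ∧
    (∀ t : ℝ, γ (t + T) = γ t) ∧ (∃ s t : ℝ, γ s ≠ γ t) ∧ C = Set.range γ}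

/-- the bound -/
noncomputable def bound (n : ℕ) (ε : ℝ) : ℝ :=
  4 * 10 ^ 9 * (n + 1) ^ 8 * (1 + Real.log ((n + 1) / ε)) / ε

/-- **Weak type bound over the rotations for the number of closed orbits of all sizes.** -/
theorem result (n : ℕ) (P Q : MvPolynomial (Fin 2) ℝ) (hP : P.totalDegree ≤ n)
    (hQ : Q.totalDegree ≤ n) (hne : P ≠ 0 ∨ Q ≠ 0) :
    (∀ ε : ℝ, 0 < ε → ε ≤ 1 →
      volume {α : ℝ | α ∈ Ioo 0 (2 * Real.pi) ∧
        ENNReal.ofReal (bound n ε) < ((closedOrbits P Q α).encard : ℝ≥0∞)} ≤ ENNReal.ofReal ε) ∧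
    (∀ ε θ : ℝ, 0 < ε → ε ≤ 1 → ∃ α ∈ Ioo θ (θ + ε),
      ((closedOrbits P Q α).encard : ℝ≥0∞) ≤ ENNReal.ofReal (bound n ε)) ∧
    (∀ q : ℝ, 0 < q → q < 1 → ∃ g : ℝ → ℝ≥0∞, Measurable g ∧
      (∀ α ∈ Ioo 0 (2 * Real.pi), ((closedOrbits P Q α).encard : ℝ≥0∞) ^ q ≤ g α) ∧
      ∫⁻ α in Ioo 0 (2 * Real.pi), g α ≤
        ENNReal.ofReal (10 ^ 11 * (n + 1) ^ 9 / (1 - q) ^ 2)) :=
  ⟨fun _ h0 h1 => W960.HQ.measq_two_pi hP hQ hne h0 h1,
    fun _ θ h0 h1 => W960.HQ.existsq_angle_near hP hQ hne h0 h1 θ,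
    fun _ h0 h1 => W960.HQ.moments hP hQ hne h0 h1⟩

end Pool.Agent.Results.MP_95e7ec_an.RotatedWeakType
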